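import Pool.Agent.Helper1.HadamardMain

/-! Determinants (the immanants of the sign character) of Hadamard products of Jacobi-Trudi
matrices are not monomial-positive, for any size `n ≥ 3`. -/

set_option autoImplicit false

namespace Pool.Agent.Results.MP_099a0f_co.DetNotMPositive

open Pool.Agent.Helper1.Hadamard

/-- For every `n ≥ 3` there are partitions `mu ⊆ lam`, `rho ⊆ nu` of length at most `n` such that
the immanant, for the sign character, of `JT_{lam/mu}(x) * JT_{nu/rho}(y)` has an expansion in the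
products `m_α(x) m_β(y)`, and in every such expansion the coefficient of
`m_{1^47}(x) m_{1^43}(y)` is negative. -/
theorem result : ∀ n : ℕ, 3 ≤ n → ∃ lam mu nu rho : ℕ → ℕ,
    (IsPart n lam ∧ IsPart n mu ∧ IsPart n nu ∧ IsPart n rho) ∧
    (∀ i, mu i ≤ lam i) ∧ (∀ i, rho i ≤ nu i) ∧
    (∃ c, IsMonomialExpansion (imm (fun w : Equiv.Perm (Fin n) => (Equiv.Perm.sign w : ℤ))
      (hadJT n lam mu nu rho)) c) ∧
    (∀ c, IsMonomialExpansion (imm (fun w : Equiv.Perm (Fin n) => (Equiv.Perm.sign w : ℤ))
      (hadJT n lam mu nu rho)) c →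
      c (Multiset.replicate 47 1) (Multiset.replicate 43 1) < 0) := by
  intro n hn
  refine ⟨parts [17, 17, 15], parts [2, 0, 0], parts [17, 15, 15], parts [2, 2, 0],
    ⟨isPart_parts3 hn (by norm_num) (by norm_num), isPart_parts3 hn (by norm_num) (by norm_num),
      isPart_parts3 hn (by norm_num) (by norm_num), isPart_parts3 hn (by norm_num) (by norm_num)⟩,
    ?_, ?_, exists_expansion (isSym_imm _ _ _ _ _ _), ?_⟩
  · intro i
    rcases i with _ | _ | _ | i
    · show 2 ≤ 17; norm_num
    · show 0 ≤ 17; norm_num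
    · show 0 ≤ 15; norm_num
    · show 0 ≤ 0; norm_num
  · intro i
    rcases i with _ | _ | _ | i
    · show 2 ≤ 17; norm_num
    · show 2 ≤ 15; norm_num
    · show 0 ≤ 15; norm_num
    · show 0 ≤ 0; norm_num
  · intro c hc
    rw [coeff_det hn c hc]
    norm_num

end Pool.Agent.Results.MP_099a0f_co.DetNotMPositive
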