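import Pool.Agent.Helper1.HadamardMono2

/-! The monomial immanant for `η = (1,1,1)` of a Hadamard product of Jacobi-Trudi matrices need not
be monomial-positive. -/

set_option autoImplicit false

namespace Pool.Agent.Results.MP_099a0f_co.MonomialNotMPositive

open Pool.Agent.Helper1.Hadamard

/-- The family of monomial characters of `S_3` exists, and for the monomial character `φ_η` with
`η = (1,1,1)` there are partitions `mu ⊆ lam`, `rho ⊆ nu` of length at most `3` such that the
immanant `Imm_{φ_η}` of `JT_{lam/mu}(x) * JT_{nu/rho}(y)` has an expansion in the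
`m_α(x) m_β(y)`, and in every such expansion the coefficient of `m_{1^47}(x) m_{1^43}(y)` is
negative. -/
theorem result : (∃ φ, IsMonomialCharacters 3 φ) ∧ ∀ φ, IsMonomialCharacters 3 φ →
    ∀ η : (Fintype.card (Fin 3)).Partition, η.parts = Multiset.replicate 3 1 →
    ∃ lam mu nu rho : ℕ → ℕ, (IsPart 3 lam ∧ IsPart 3 mu ∧ IsPart 3 nu ∧ IsPart 3 rho) ∧
    (∀ i, mu i ≤ lam i) ∧ (∀ i, rho i ≤ nu i) ∧
    (∃ c, IsMonomialExpansion (imm (φ η) (hadJT 3 lam mu nu rho)) c) ∧
    (∀ c, IsMonomialExpansion (imm (φ η) (hadJT 3 lam mu nu rho)) c →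
      c (Multiset.replicate 47 1) (Multiset.replicate 43 1) < 0) := by
  refine ⟨exists_phi, ?_⟩
  intro φ hφ η hη
  have hη' : η = eta111 := Nat.Partition.ext hη
  have hsign : φ η = fun w : Equiv.Perm (Fin 3) => (Equiv.Perm.sign w : ℤ) := by
    funext w
    rw [hη', phi_eq_sign φ hφ w]
  refine ⟨parts [17, 17, 15], parts [2, 0, 0], parts [17, 15, 15], parts [2, 2, 0],
    ⟨isPart_parts3 le_rfl (by norm_num) (by norm_num),
      isPart_parts3 le_rfl (by norm_num) (by norm_num),
      isPart_parts3 le_rfl (by norm_num) (by norm_num),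
      isPart_parts3 le_rfl (by norm_num) (by norm_num)⟩,
    ?_, ?_, exists_expansion (isSym_imm _ _ _ _ _ _), ?_⟩
  · intro i
    rcases i with _ | _ | _ | i
    · show 2 ≤ 17; norm_num
    · show 0 ≤ 17; norm_num
    · show 0 ≤ 15; norm_num
    · show 0 ≤ 0; norm_num
  · intro i
    rcases i with _ | _ | _ | i
    · show 2 ≤ 17; norm_num
    · show 2 ≤ 15; norm_num
    · show 0 ≤ 15; norm_num
    · show 0 ≤ 0; norm_num
  · intro c hc
    rw [hsign] at hc
    rw [coeff_det le_rfl c hc]
    norm_num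

end Pool.Agent.Results.MP_099a0f_co.MonomialNotMPositive
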